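import Mathlib
import Pool.Prelude.Def_F_0702b569

/-!
MP_3edce6_co: Ryser's conjecture for 5-partite hypergraphs of maximum degree at most 4.
Basic notions and the properties of a minimal counterexample.
-/

namespace Pool.Agent.Lib.MP_3edce6_co

open Finset N00f51e3f
open scoped Classical

universe u
variable {V : Fin 5 → Type u}

/-- two edges share a vertex -/
def mt (e g : Edge V) : Prop := ∃ i, e i = g i

theorem mt_comm {e g : Edge V} : mt e g ↔ mt g e :=
  ⟨fun ⟨i, h⟩ => ⟨i, h.symm⟩, fun ⟨i, h⟩ => ⟨i, h.symm⟩⟩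

theorem mt_self (e : Edge V) : mt e e := ⟨0, rfl⟩

/-- matchings -/
def Mt (S : Finset (Edge V)) : Prop := ∀ e ∈ S, ∀ f ∈ S, e ≠ f → ¬ mt e f

/-- covers -/
def Cv (C : Finset ((i : Fin 5) × V i)) (H : Finset (Edge V)) : Prop :=
  ∀ e ∈ H, ∃ i, (⟨i, e i⟩ : (i : Fin 5) × V i) ∈ C

/-- a matching and a cover of at most four times the size -/
def Ok (H : Finset (Edge V)) : Prop :=
  ∃ M ⊆ H, Mt M ∧ ∃ C, Cv C H ∧ C.card ≤ 4 * M.card

/-- the number of edges of `H` through the vertex of `g` in the class `i` -/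
noncomputable def dd (H : Finset (Edge V)) (g : Edge V) (i : Fin 5) : ℕ :=
  (H.filter (fun g' => g' i = g i)).card

/-- a minimal counterexample -/
structure Cex (H : Finset (Edge V)) : Prop where
  deg : ∀ g ∈ H, ∀ i, dd H g i ≤ 4
  sub : ∀ H', H' ⊂ H → Ok H'
  no : ¬ Ok H

variable {H : Finset (Edge V)}

theorem dd_congr {H : Finset (Edge V)} {g g' : Edge V} {i : Fin 5} (h : g i = g' i) :
    dd H g i = dd H g' i := by
  unfold dd
  rw [h]

theorem dd_pos {F : Finset (Edge V)} {g : Edge V} (hg : g ∈ F) (i : Fin 5) : 1 ≤ dd F g i := by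
  unfold dd
  exact Finset.card_pos.2 ⟨g, Finset.mem_filter.2 ⟨hg, rfl⟩⟩

theorem dd_mono {F H : Finset (Edge V)} (hFH : F ⊆ H) (g : Edge V) (i : Fin 5) :
    dd F g i ≤ dd H g i :=
  Finset.card_le_card (Finset.filter_subset_filter _ hFH)

/-- no closed neighbourhood of an edge is covered by four vertices -/
theorem Cex.av (h : Cex H) {e : Edge V} (he : e ∈ H) (C : Finset ((i : Fin 5) × V i))
    (hC : C.card ≤ 4) : ∃ g ∈ H, mt e g ∧ ∀ i, (⟨i, g i⟩ : (i : Fin 5) × V i) ∉ C := by
  by_contra hcon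
  push Not at hcon
  set H' := H.filter (fun g => ∀ i, (⟨i, g i⟩ : (i : Fin 5) × V i) ∉ C) with hH'
  have heC : ∃ i, (⟨i, e i⟩ : (i : Fin 5) × V i) ∈ C := hcon e he (mt_self e)
  have hss : H' ⊂ H := by
    refine Finset.ssubset_iff_subset_ne.2 ⟨Finset.filter_subset _ _, fun heq => ?_⟩
    rw [← heq, hH', Finset.mem_filter] at he
    obtain ⟨i, hi⟩ := heC
    exact he.2 i hi
  obtain ⟨M, hMH, hM, C', hC', hc⟩ := h.sub H' hss
  have hMe : ∀ g ∈ M, ¬ mt e g := by
    intro g hg hm
    have h1 := hMH hg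
    rw [hH', Finset.mem_filter] at h1
    obtain ⟨i, hi⟩ := hcon g h1.1 hm
    exact h1.2 i hi
  have heM : e ∉ M := fun hem => hMe e hem (mt_self e)
  refine h.no ⟨insert e M, ?_, ?_, C ∪ C', ?_, ?_⟩
  · intro g hg
    rcases Finset.mem_insert.1 hg with rfl | hg
    · exact he
    · exact Finset.filter_subset _ _ (hMH hg)
  · intro a ha b hb hab
    rcases Finset.mem_insert.1 ha with ha1 | ha1
    · rcases Finset.mem_insert.1 hb with hb1 | hb1
      · exact absurd (ha1.trans hb1.symm) hab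
      · rw [ha1]
        exact hMe b hb1
    · rcases Finset.mem_insert.1 hb with hb1 | hb1
      · rw [hb1]
        exact fun hm => hMe a ha1 (mt_comm.1 hm)
      · exact hM a ha1 b hb1 hab
  · intro g hg
    by_cases hgC : ∀ i, (⟨i, g i⟩ : (i : Fin 5) × V i) ∉ C
    · obtain ⟨i, hi⟩ := hC' g (Finset.mem_filter.2 ⟨hg, hgC⟩)
      exact ⟨i, Finset.mem_union_right _ hi⟩
    · push Not at hgC
      obtain ⟨i, hi⟩ := hgC
      exact ⟨i, Finset.mem_union_left _ hi⟩
  · rw [Finset.card_insert_of_notMem heM]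
    have := Finset.card_union_le C C'
    omega

/-- intersecting proper subfamilies are covered by four vertices -/
theorem Cex.four (h : Cex H) {F : Finset (Edge V)} (hF : F ⊂ H)
    (hi : ∀ g ∈ F, ∀ g' ∈ F, mt g g') : ∃ C, Cv C F ∧ C.card ≤ 4 := by
  obtain ⟨M, hMF, hM, C, hC, hc⟩ := h.sub F hF
  refine ⟨C, hC, ?_⟩
  have hM1 : M.card ≤ 1 := by
    rw [Finset.card_le_one]
    intro a ha b hb
    by_contra hab
    exact hM a ha b hb hab (hi a (hMF ha) b (hMF hb))
  omega

/-- all degrees are at least two -/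
theorem Cex.deg2 (h : Cex H) {e : Edge V} (he : e ∈ H) (i : Fin 5) : 2 ≤ dd H e i := by
  set C : Finset ((i : Fin 5) × V i) :=
    (Finset.univ.erase i).image (fun j => (⟨j, e j⟩ : (i : Fin 5) × V i)) with hC
  have hc : C.card ≤ 4 := by
    refine Finset.card_image_le.trans ?_
    rw [Finset.card_erase_of_mem (Finset.mem_univ i)]
    simp
  obtain ⟨g, hg, hm, hav⟩ := h.av he C hc
  have hne : ∀ j, j ≠ i → g j ≠ e j := by
    intro j hj hgj
    refine hav j ?_
    rw [hC, Finset.mem_image]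
    exact ⟨j, Finset.mem_erase.2 ⟨hj, Finset.mem_univ j⟩, by rw [hgj]⟩
  have hgi : g i = e i := by
    obtain ⟨j, hj⟩ := hm
    by_cases hji : j = i
    · rw [← hji]
      exact hj.symm
    · exact absurd hj.symm (hne j hji)
  have hgne : g ≠ e := by
    obtain ⟨j, hj⟩ : ∃ j : Fin 5, j ≠ i := exists_ne i
    intro heq
    exact hne j hj (by rw [heq])
  unfold dd
  have h2 : ({e, g} : Finset (Edge V)) ⊆ H.filter (fun g' => g' i = e i) := by
    intro x hx
    rw [Finset.mem_insert, Finset.mem_singleton] at hx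
    rw [Finset.mem_filter]
    rcases hx with rfl | rfl
    · exact ⟨he, rfl⟩
    · exact ⟨hg, hgi⟩
  have h3 := Finset.card_le_card h2
  rw [Finset.card_pair hgne.symm] at h3
  exact h3

/-- the classes are large -/
theorem Cex.cls (h : Cex H) {M : Finset (Edge V)} (hMH : M ⊆ H) (hM : Mt M) (i : Fin 5) :
    4 * M.card < (H.image (fun g => g i)).card := by
  by_contra hcon
  push Not at hcon
  refine h.no ⟨M, hMH, hM, (H.image (fun g => g i)).image
    (fun x => (⟨i, x⟩ : (i : Fin 5) × V i)), ?_, Finset.card_image_le.trans hcon⟩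
  intro g hg
  exact ⟨i, Finset.mem_image.2 ⟨g i, Finset.mem_image.2 ⟨g, hg, rfl⟩, rfl⟩⟩

/-- sums over the vertices of a class -/
theorem sum_cls (F : Finset (Edge V)) (i : Fin 5) (f : ℕ → ℕ) :
    ∑ g ∈ F, f (dd F g i) =
      ∑ x ∈ F.image (fun g => g i), (F.filter (fun g => g i = x)).card *
        f (F.filter (fun g => g i = x)).card := by
  rw [← Finset.sum_fiberwise_of_maps_to (g := fun g : Edge V => g i)
    (t := F.image (fun g => g i)) (fun g hg => Finset.mem_image_of_mem _ hg)]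
  refine Finset.sum_congr rfl fun x _ => ?_
  rw [Finset.sum_congr rfl (g := fun _ => f (F.filter (fun g => g i = x)).card)]
  · rw [Finset.sum_const, smul_eq_mul]
  · intro g hg
    rw [Finset.mem_filter] at hg
    unfold dd
    rw [hg.2]

theorem sum_div (F : Finset (Edge V)) (i : Fin 5) (hF : ∀ g ∈ F, dd F g i ≤ 4) :
    ∑ g ∈ F, 12 / dd F g i = 12 * (F.image (fun g => g i)).card := by
  rw [sum_cls F i (fun m => 12 / m), Finset.card_eq_sum_ones, Finset.mul_sum]
  refine Finset.sum_congr rfl fun x hx => ?_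
  obtain ⟨g, hg, rfl⟩ := Finset.mem_image.1 hx
  have h1 := hF g hg
  have h2 := dd_pos hg i
  unfold dd at h1 h2
  set m := (F.filter (fun g' => g' i = g i)).card with hm
  interval_cases m <;> rfl

/-- the part sizes of a class -/
theorem parts (F : Finset (Edge V)) (i : Fin 5) (hF : ∀ g ∈ F, dd F g i ≤ 4) :
    ∃ n1 n2 n3 n4 : ℕ, F.card = n1 + 2 * n2 + 3 * n3 + 4 * n4 ∧
      (F.image (fun g => g i)).card = n1 + n2 + n3 + n4 ∧
      ∑ g ∈ F, dd F g i = n1 + 4 * n2 + 9 * n3 + 16 * n4 ∧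
      (1 ≤ n1 → ∃ g ∈ F, dd F g i = 1) ∧ (1 ≤ n3 → ∃ g ∈ F, dd F g i = 3) := by
  set im := F.image (fun g => g i) with him
  set m : V i → ℕ := fun x => (F.filter (fun g => g i = x)).card with hm
  have hm14 : ∀ x ∈ im, m x = 1 ∨ m x = 2 ∨ m x = 3 ∨ m x = 4 := by
    intro x hx
    obtain ⟨g, hg, rfl⟩ := Finset.mem_image.1 hx
    have h1 := hF g hg
    have h2 := dd_pos hg i
    unfold dd at h1 h2
    simp only [hm]
    omega
  have key : ∀ f : ℕ → ℕ, ∑ x ∈ im, f (m x) =
      f 1 * (im.filter (fun x => m x = 1)).card + f 2 * (im.filter (fun x => m x = 2)).card +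
      f 3 * (im.filter (fun x => m x = 3)).card + f 4 * (im.filter (fun x => m x = 4)).card := by
    intro f
    simp only [Finset.card_filter, Finset.mul_sum]
    rw [← Finset.sum_add_distrib, ← Finset.sum_add_distrib, ← Finset.sum_add_distrib]
    refine Finset.sum_congr rfl fun x hx => ?_
    rcases hm14 x hx with h | h | h | h <;> rw [h] <;> simp
  refine ⟨(im.filter (fun x => m x = 1)).card, (im.filter (fun x => m x = 2)).card,
    (im.filter (fun x => m x = 3)).card, (im.filter (fun x => m x = 4)).card, ?_, ?_, ?_, ?_, ?_⟩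
  · have h1 := sum_cls F i (fun _ => 1)
    simp only [Finset.sum_const, smul_eq_mul, mul_one] at h1
    rw [h1, ← him]
    have h2 := key (fun m => m)
    simp only [hm] at h2 ⊢
    omega
  · have h2 := key (fun _ => 1)
    simp only [Finset.sum_const, smul_eq_mul, mul_one, one_mul] at h2
    omega
  · have h1 := sum_cls F i (fun m => m)
    rw [h1, ← him]
    have h2 := key (fun m => m * m)
    simp only [hm] at h2 ⊢
    omega
  · intro hn
    obtain ⟨x, hx⟩ := Finset.card_pos.1 (lt_of_lt_of_le Nat.zero_lt_one hn)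
    rw [Finset.mem_filter] at hx
    obtain ⟨g, hg, rfl⟩ := Finset.mem_image.1 hx.1
    exact ⟨g, hg, hx.2⟩
  · intro hn
    obtain ⟨x, hx⟩ := Finset.card_pos.1 (lt_of_lt_of_le Nat.zero_lt_one hn)
    rw [Finset.mem_filter] at hx
    obtain ⟨g, hg, rfl⟩ := Finset.mem_image.1 hx.1
    exact ⟨g, hg, hx.2⟩

end Pool.Agent.Lib.MP_3edce6_co
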