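import Pool.Agent.Lib.MP_3edce6_co.Types

/-!
MP_3edce6_co: intersecting families with eleven edges.
-/

namespace Pool.Agent.Lib.MP_3edce6_co

open Finset N00f51e3f
open scoped Classical

universe u
variable {V : Fin 5 → Type u} {H : Finset (Edge V)}

/-- a sum over the indices with one or two distinguished terms -/
private theorem two_terms (f : Fin 5 → ℕ) {i j : Fin 5} (hij : i ≠ j) : f i + f j ≤ ∑ k, f k := by
  rw [← Finset.add_sum_erase _ f (Finset.mem_univ i),
    ← Finset.add_sum_erase _ f (Finset.mem_erase.2 ⟨hij.symm, Finset.mem_univ j⟩)]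
  omega

/-- Lemma P3 -/
theorem Cex.lemB (h : Cex H) {F : Finset (Edge V)} (hF : F ⊂ H)
    (hi : ∀ g ∈ F, ∀ g' ∈ F, mt g g') (h11 : F.card = 11) (hc : ∀ g ∈ F, cc H g ≤ 21) :
    3 ≤ ∑ g ∈ F, (21 - cc H g) := by
  by_contra hG
  push Not at hG
  have hd4 : ∀ g ∈ F, ∀ i, dd F g i ≤ 4 := fun g hg i =>
    (dd_mono hF.1 g i).trans (h.deg g (hF.1 hg) i)
  have hs : ∀ g ∈ F, 15 ≤ ∑ i, dd F g i := by
    intro g hg
    have := inter_sum hi hg
    omega
  have ho : ∀ g ∈ F, ∑ i, dd F g i + 1 ≤ ss H g := fun g hg => h.out hF hi hg
  have hle : ∀ A : Finset (Edge V), A ⊆ F → ∑ x ∈ A, (21 - cc H x) ≤ 2 := by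
    intro A hA
    have := Finset.sum_le_sum_of_subset_of_nonneg (f := fun x => 21 - cc H x) hA
      fun _ _ _ => Nat.zero_le _
    omega
  have hthree : ∀ g ∈ F, 1 ≤ nu H 3 g → 1 ≤ 21 - cc H g := by
    intro g hg h3
    have h1 := h.typ (hF.1 hg)
    have h2 := ho g hg
    have h4 := hs g hg
    have h5 := hc g hg
    omega
  have hone : ∀ g ∈ F, 19 ≤ cc H g := by
    intro g hg
    have := hle {g} (Finset.singleton_subset_iff.2 hg)
    rw [Finset.sum_singleton] at this
    omega
  -- vertices of degree three are not full
  have hA : ∀ g ∈ F, ∀ i, dd H g i = 3 → dd F g i ≤ 2 := by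
    intro g hg i hgi
    by_contra hcon
    push Not at hcon
    have h1 := hle (F.filter (fun x => x i = g i)) (Finset.filter_subset _ _)
    have h2 : ∑ x ∈ F.filter (fun x => x i = g i), 1 ≤
        ∑ x ∈ F.filter (fun x => x i = g i), (21 - cc H x) := by
      refine Finset.sum_le_sum fun x hx => ?_
      rw [Finset.mem_filter] at hx
      exact hthree x hx.1 (nu_pos ((dd_congr hx.2).trans hgi))
    rw [← Finset.card_eq_sum_ones] at h2
    unfold dd at hcon
    omega
  have hB : ∀ g ∈ F, ∑ i, dd F g i + nu H 3 g ≤ ss H g := by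
    intro g hg
    unfold nu ss
    rw [Finset.card_filter, ← Finset.sum_add_distrib]
    refine Finset.sum_le_sum fun i _ => ?_
    have h1 := dd_mono hF.1 g i
    split_ifs with h2
    · have := hA g hg i h2
      omega
    · omega
  have hC : ∀ g ∈ F, ∀ i, dd H g i = 3 → dd F g i = 1 := by
    intro g hg i hgi
    have h1 := dd_pos hg i
    have h2 := hA g hg i hgi
    by_contra hcon
    have h3 : dd F g i = 2 := by omega
    have h4 : 1 < (F.filter (fun x => x i = g i)).card := by
      unfold dd at h3
      omega
    obtain ⟨x, hx, y, hy, hxy⟩ := Finset.one_lt_card.1 h4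
    rw [Finset.mem_filter] at hx hy
    have h5 := hle {x, y} (by
      intro z hz
      rw [Finset.mem_insert, Finset.mem_singleton] at hz
      rcases hz with rfl | rfl
      · exact hx.1
      · exact hy.1)
    rw [Finset.sum_pair hxy] at h5
    have hxn := nu_pos ((dd_congr hx.2).trans hgi)
    have hyn := nu_pos ((dd_congr hy.2).trans hgi)
    have h6 := hthree x hx.1 hxn
    have h7 := hthree y hy.1 hyn
    have h8 := h.typ (hF.1 hx.1)
    have h9 := hB x hx.1
    have h10 := hs x hx.1
    omega
  have hD : ∀ g ∈ F, ∑ i, dd F g i + 2 * nu H 3 g ≤ ss H g := by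
    intro g hg
    unfold nu ss
    rw [Finset.card_filter, Finset.mul_sum, ← Finset.sum_add_distrib]
    refine Finset.sum_le_sum fun i _ => ?_
    have h1 := dd_mono hF.1 g i
    split_ifs with h2
    · have := hC g hg i h2
      omega
    · omega
  have htype : ∀ g ∈ F, (nu H 2 g = 2 ∧ nu H 3 g = 0 ∧ nu H 4 g = 3) ∨
      (nu H 2 g = 1 ∧ nu H 3 g = 1 ∧ nu H 4 g = 3) := by
    intro g hg
    have h1 := h.typ (hF.1 hg)
    have h2 := hD g hg
    have h3 := hs g hg
    have h4 := hone g hg
    have h5 := hc g hg
    have h6 := ho g hg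
    omega
  -- no class with at most four vertices
  have hK : ∀ i, 5 ≤ (F.image (fun g => g i)).card := by
    intro i
    by_contra hcon
    have hK : (F.image (fun g => g i)).card ≤ 4 := by omega
    have hfull : ∀ g ∈ F, dd F g i = 2 ∨ dd F g i = 4 := by
      intro g hg
      have h1 := h.out' hF hK hg
      have h2 := h.typ (hF.1 hg)
      have h3 := hs g hg
      have h4 := dd_mono hF.1 g i
      have h5 := sum_split F g i
      have h6 := sum_split H g i
      unfold ss at h2
      rcases h.deg' (hF.1 hg) i with h7 | h7 | h7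
      · -- degree 2
        left
        rcases htype g hg with h8 | h8
        · omega
        · by_contra hcon2
          obtain ⟨j, hj⟩ := Finset.card_pos.1 (by
            have := h8.2.1
            unfold nu at this
            omega : 0 < (Finset.univ.filter (fun i => dd H g i = 3)).card)
          rw [Finset.mem_filter] at hj
          have hji : i ≠ j := by
            rintro rfl
            omega
          have h9 := hC g hg j hj.2
          have h10 := two_terms (fun k => dd H g k - dd F g k) hji
          have h11 : ∑ k, (dd H g k - dd F g k) + ∑ k, dd F g k = ∑ k, dd H g k := by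
            rw [← Finset.sum_add_distrib]
            refine Finset.sum_congr rfl fun k _ => ?_
            have := dd_mono hF.1 g k
            omega
          omega
      · -- degree 3
        exfalso
        have h8 := hC g hg i h7
        rcases htype g hg with h9 | h9
        · have := nu_pos h7
          omega
        · omega
      · -- degree 4
        right
        rcases htype g hg with h8 | h8
        · omega
        · by_contra hcon2
          obtain ⟨j, hj⟩ := Finset.card_pos.1 (by
            have := h8.2.1
            unfold nu at this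
            omega : 0 < (Finset.univ.filter (fun i => dd H g i = 3)).card)
          rw [Finset.mem_filter] at hj
          have hji : i ≠ j := by
            rintro rfl
            omega
          have h9 := hC g hg j hj.2
          have h10 := two_terms (fun k => dd H g k - dd F g k) hji
          have h11 : ∑ k, (dd H g k - dd F g k) + ∑ k, dd F g k = ∑ k, dd H g k := by
            rw [← Finset.sum_add_distrib]
            refine Finset.sum_congr rfl fun k _ => ?_
            have := dd_mono hF.1 g k
            omega
          omega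
    obtain ⟨n1, n2, n3, n4, h1, -, -, h4, h5⟩ := parts F i fun g hg => hd4 g hg i
    have hn1 : n1 = 0 := by
      by_contra hn
      obtain ⟨g, hg, hg1⟩ := h4 (by omega)
      have := hfull g hg
      omega
    have hn3 : n3 = 0 := by
      by_contra hn
      obtain ⟨g, hg, hg1⟩ := h5 (by omega)
      have := hfull g hg
      omega
    omega
  -- count the vertices
  have h1 : ∀ g ∈ F, ∑ i, 12 / dd F g i ≤ 27 := by
    intro g hg
    have h2 : ∑ i, 12 / dd F g i + 4 * nu H 3 g + 6 * ∑ i, dd F g i ≤ cc H g + 6 * ss H g := by
      unfold nu cc ss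
      rw [Finset.card_filter, Finset.mul_sum, Finset.mul_sum, Finset.mul_sum,
        ← Finset.sum_add_distrib, ← Finset.sum_add_distrib, ← Finset.sum_add_distrib]
      refine Finset.sum_le_sum fun i _ => ?_
      have h3 := dd_mono hF.1 g i
      have h4 := dd_pos hg i
      rcases h.deg' (hF.1 hg) i with h5 | h5 | h5
      · rw [h5] at h3 ⊢
        have : dd F g i = 1 ∨ dd F g i = 2 := by omega
        rcases this with h6 | h6 <;> rw [h6] <;> norm_num
      · have h6 := hC g hg i h5
        rw [h5, h6]
        norm_num
      · rw [h5] at h3 ⊢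
        have : dd F g i = 1 ∨ dd F g i = 2 ∨ dd F g i = 3 ∨ dd F g i = 4 := by omega
        rcases this with h6 | h6 | h6 | h6 <;> rw [h6] <;> norm_num
    have h3 := h.typ (hF.1 hg)
    have h4 := hs g hg
    rcases htype g hg with h5 | h5 <;> omega
  have h2 : ∑ i : Fin 5, 60 ≤ ∑ i : Fin 5, ∑ g ∈ F, 12 / dd F g i := by
    refine Finset.sum_le_sum fun i _ => ?_
    rw [sum_div F i fun g hg => hd4 g hg i]
    have := hK i
    omega
  rw [Finset.sum_comm] at h2
  have h3 : ∑ g ∈ F, ∑ i, 12 / dd F g i ≤ ∑ g ∈ F, 27 := Finset.sum_le_sum h1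
  rw [Finset.sum_const, h11] at h3
  rw [Finset.sum_const, Finset.card_univ, Fintype.card_fin] at h2
  simp only [smul_eq_mul] at h2 h3
  omega

end Pool.Agent.Lib.MP_3edce6_co
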