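import Pool.Agent.Lib.MP_3edce6_co.Match

/-!
MP_3edce6_co: the charging argument and the theorem.
-/

namespace Pool.Agent.Lib.MP_3edce6_co

open Finset N00f51e3f
open scoped Classical

universe u
variable {V : Fin 5 → Type u} {H S : Finset (Edge V)}

/-- the load of `e` -/
noncomputable def Lz (H S : Finset (Edge V)) (e : Edge V) : ℕ :=
  ∑ g ∈ Fe H S e, cc H g + (Qe H S e).card * cc H e

/-- the discount of `e` at its neighbour `h` -/
noncomputable def al (H S : Finset (Edge V)) (e h : Edge V) : ℕ :=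
  if Lz H S e ≤ 240 then 0
  else if (Qe H S e).card = 1 then Lz H S e - 240
  else if nu H 3 e = 0 then
    (if nu H 2 e = 1 then
      (if (∃ i, h i = e i ∧ dd H e i = 2) ∧ 3 ≤ (Qe H S e).card then 3 else 6) else 6)
  else if nu H 2 e = 1 then 4 else 1

theorem Cex.types4 (hH : Cex H) {e : Edge V} (he : e ∈ H) {N : ℕ} (hN : N + 4 ≤ ss H e)
    (hL : 240 < N * cc H e) :
    (nu H 2 e = 1 ∧ nu H 3 e = 0 ∧ nu H 4 e = 4 ∧ N = 14 ∧ cc H e = 18) ∨
    (nu H 2 e = 2 ∧ nu H 3 e = 0 ∧ nu H 4 e = 3 ∧ N = 12 ∧ cc H e = 21) ∨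
    (nu H 2 e = 1 ∧ nu H 3 e = 1 ∧ nu H 4 e = 3 ∧ N = 13 ∧ cc H e = 19) ∨
    (nu H 2 e = 2 ∧ nu H 3 e = 1 ∧ nu H 4 e = 2 ∧ N = 11 ∧ cc H e = 22) := by
  obtain ⟨h1, h2, h3⟩ := hH.typ he
  rw [h2] at hN
  rw [h3] at hL
  rw [h3]
  generalize nu H 2 e = a at *
  generalize nu H 3 e = b at *
  generalize nu H 4 e = c at *
  have ha : a ≤ 5 := by omega
  have hb : b ≤ 5 := by omega
  have hc : c = 5 - a - b := by omega
  subst hc
  interval_cases a <;> interval_cases b <;> simp at h1 hN hL ⊢ <;> omega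

theorem MS.Lz_le (hS : MS H S) {e : Edge V} (he : e ∈ S) :
    Lz H S e ≤ (Ne H e).card * cc H e := by
  unfold Lz
  rw [← Ne_split (H := H) (S := S) e, add_mul]
  refine Nat.add_le_add_right ?_ _
  rw [← smul_eq_mul, ← Finset.sum_const]
  exact Finset.sum_le_sum fun g hg => hS.swap he hg

theorem Fe_ssub {e h : Edge V} (hh : h ∈ Qe H S e) : Fe H S e ⊂ H := by
  refine Finset.ssubset_iff_subset_ne.2 ⟨Finset.filter_subset _ _, fun heq => ?_⟩
  unfold Qe at hh
  rw [Finset.mem_filter] at hh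
  have h1 := hh.1
  rw [← heq] at h1
  unfold Fe at h1
  rw [Finset.mem_filter] at h1
  exact hh.2.2 h1.2

/-- the possible cases for the load -/
theorem Cex.info (hH : Cex H) (hS : MS H S) {e : Edge V} (he : e ∈ S) :
    Lz H S e ≤ 240 ∨
    (nu H 2 e = 1 ∧ nu H 3 e = 0 ∧ nu H 4 e = 4 ∧ cc H e = 18 ∧
      (Fe H S e).card + (Qe H S e).card = 14 ∧ Lz H S e ≤ 252 ∧
      ((Qe H S e).card = 1 → Lz H S e ≤ 247)) ∨
    (nu H 2 e = 2 ∧ nu H 3 e = 0 ∧ nu H 4 e = 3 ∧ cc H e = 21 ∧
      (Fe H S e).card + (Qe H S e).card = 12 ∧ Lz H S e ≤ 252 ∧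
      ((Qe H S e).card = 1 → Lz H S e ≤ 249)) ∨
    (nu H 2 e = 1 ∧ nu H 3 e = 1 ∧ nu H 4 e = 3 ∧ cc H e = 19 ∧
      (Fe H S e).card + (Qe H S e).card = 13 ∧ Lz H S e ≤ 247) ∨
    (nu H 2 e = 2 ∧ nu H 3 e = 1 ∧ nu H 4 e = 2 ∧ cc H e = 22 ∧
      (Fe H S e).card + (Qe H S e).card = 11 ∧ Lz H S e ≤ 242) := by
  by_cases hL : Lz H S e ≤ 240
  · exact Or.inl hL
  push Not at hL
  right
  have heH := hS.sub he
  have h1 := hS.Lz_le he
  have h2 := hH.types4 heH (Ne_card heH) (lt_of_lt_of_le hL h1)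
  have h3 := Ne_split (H := H) (S := S) e
  have hsw : ∀ g ∈ Fe H S e, cc H g ≤ cc H e := fun g hg => hS.swap he hg
  rcases h2 with ⟨a, b, c, d, f⟩ | ⟨a, b, c, d, f⟩ | ⟨a, b, c, d, f⟩ | ⟨a, b, c, d, f⟩
  · left
    rw [d, f] at h1
    refine ⟨a, b, c, f, by omega, by omega, fun hq => ?_⟩
    obtain ⟨h, hh⟩ := Finset.card_pos.1 (by omega : 0 < (Qe H S e).card)
    have h4 := hH.lemA (Fe_ssub hh) (hS.inter he) (by omega) (by rw [← f]; exact hsw)
    have h5 : ∑ g ∈ Fe H S e, (18 - cc H g) + ∑ g ∈ Fe H S e, cc H g =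
        ∑ g ∈ Fe H S e, 18 := by
      rw [← Finset.sum_add_distrib]
      refine Finset.sum_congr rfl fun g hg => ?_
      have := hsw g hg
      omega
    rw [Finset.sum_const, smul_eq_mul] at h5
    unfold Lz
    rw [hq, f]
    omega
  · right; left
    rw [d, f] at h1
    refine ⟨a, b, c, f, by omega, by omega, fun hq => ?_⟩
    obtain ⟨h, hh⟩ := Finset.card_pos.1 (by omega : 0 < (Qe H S e).card)
    have h4 := hH.lemB (Fe_ssub hh) (hS.inter he) (by omega) (by rw [← f]; exact hsw)
    have h5 : ∑ g ∈ Fe H S e, (21 - cc H g) + ∑ g ∈ Fe H S e, cc H g =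
        ∑ g ∈ Fe H S e, 21 := by
      rw [← Finset.sum_add_distrib]
      refine Finset.sum_congr rfl fun g hg => ?_
      have := hsw g hg
      omega
    rw [Finset.sum_const, smul_eq_mul] at h5
    unfold Lz
    rw [hq, f]
    omega
  · right; right; left
    rw [d, f] at h1
    exact ⟨a, b, c, f, by omega, by omega⟩
  · right; right; right
    rw [d, f] at h1
    exact ⟨a, b, c, f, by omega, by omega⟩

theorem Cex.cc_ge (hH : Cex H) {e : Edge V} (he : e ∈ H) : 15 ≤ cc H e ∧ cc H e ≤ 30 := by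
  have := hH.typ he
  omega

theorem Cex.al_le (hH : Cex H) (hS : MS H S) {e : Edge V} (he : e ∈ S) (h : Edge V) :
    al H S e h ≤ 9 ∧ al H S e h + 10 ≤ cc H e ∧
      (¬ (nu H 2 e = 2 ∧ nu H 3 e = 0 ∧ (Qe H S e).card = 1 ∧ 240 < Lz H S e) →
        al H S e h ≤ 7) := by
  have h1 := hH.info hS he
  have h2 := hH.cc_ge (hS.sub he)
  unfold al
  split_ifs <;> omega

/-- the edges at a vertex of degree two -/
theorem two_edges {e : Edge V} (he : e ∈ H) {i : Fin 5} (hi : dd H e i = 2) :
    ∃ g ∈ H, g ≠ e ∧ g i = e i ∧ ∀ x ∈ H, x i = e i → x = e ∨ x = g := by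
  unfold dd at hi
  obtain ⟨a, b, hab, hs⟩ := Finset.card_eq_two.1 hi
  have hem : e ∈ H.filter (fun g' => g' i = e i) := Finset.mem_filter.2 ⟨he, rfl⟩
  have ham : a ∈ H.filter (fun g' => g' i = e i) := by
    rw [hs]; exact Finset.mem_insert_self _ _
  have hbm : b ∈ H.filter (fun g' => g' i = e i) := by
    rw [hs]; exact Finset.mem_insert_of_mem (Finset.mem_singleton_self _)
  have hx : ∀ x ∈ H, x i = e i → x = a ∨ x = b := by
    intro x hx hxi
    have : x ∈ H.filter (fun g' => g' i = e i) := Finset.mem_filter.2 ⟨hx, hxi⟩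
    rw [hs, Finset.mem_insert, Finset.mem_singleton] at this
    exact this
  rw [hs, Finset.mem_insert, Finset.mem_singleton] at hem
  rw [Finset.mem_filter] at ham hbm
  rcases hem with hem | hem
  · refine ⟨b, hbm.1, fun hb => hab (hem.symm.trans hb.symm), hbm.2, fun x h1 h2 => ?_⟩
    rw [hem]
    exact hx x h1 h2
  · refine ⟨a, ham.1, fun ha => hab (ha.trans hem), ham.2, fun x h1 h2 => ?_⟩
    rw [hem]
    exact (hx x h1 h2).symm

theorem MS.self_notMem_Qe (hS : MS H S) {e : Edge V} (he : e ∈ S) : e ∉ Qe H S e := by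
  intro h
  unfold Qe at h
  rw [Finset.mem_filter] at h
  exact h.2.2 (Sn_self hS.mat he)

theorem MS.deg2_le (hS : MS H S) {e : Edge V} (he : e ∈ S) (h2 : nu H 2 e = 1) :
    ((Qe H S e).filter (fun h => ∃ i, h i = e i ∧ dd H e i = 2)).card ≤ 1 := by
  unfold nu at h2
  obtain ⟨i0, hi0⟩ := Finset.card_eq_one.1 h2
  have huniq : ∀ i, dd H e i = 2 → i = i0 := by
    intro i hi
    have : i ∈ Finset.univ.filter (fun i => dd H e i = 2) :=
      Finset.mem_filter.2 ⟨Finset.mem_univ i, hi⟩
    rw [hi0, Finset.mem_singleton] at this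
    exact this
  rw [Finset.card_le_one]
  intro a ha b hb
  rw [Finset.mem_filter] at ha hb
  obtain ⟨ha1, i, hai, hi⟩ := ha
  obtain ⟨hb1, j, hbj, hj⟩ := hb
  have hi' := huniq i hi
  have hj' := huniq j hj
  subst hi'
  rw [hj'] at hbj
  obtain ⟨g, -, -, -, hall⟩ := two_edges (hS.sub he) hi
  have haH : a ∈ H := (Finset.mem_filter.1 ha1).1
  have hbH : b ∈ H := (Finset.mem_filter.1 hb1).1
  have hae : a ≠ e := by
    rintro rfl
    exact hS.self_notMem_Qe he ha1
  have hbe : b ≠ e := by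
    rintro rfl
    exact hS.self_notMem_Qe he hb1
  rcases hall a haH hai with h3 | h3
  · exact absurd h3 hae
  · rcases hall b hbH hbj with h4 | h4
    · exact absurd h4 hbe
    · rw [h3, h4]

theorem Cex.goal1 (hH : Cex H) (hS : MS H S) {e : Edge V} (he : e ∈ S)
    (hq : Lz H S e ≤ 240 ∨ 1 ≤ (Qe H S e).card) :
    Lz H S e ≤ 240 + ∑ h ∈ Qe H S e, al H S e h := by
  by_cases hL : Lz H S e ≤ 240
  · omega
  have hq1 : 1 ≤ (Qe H S e).card := by
    rcases hq with h | h
    · exact absurd h hL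
    · exact h
  by_cases hq2 : (Qe H S e).card = 1
  · have h1 : ∑ h ∈ Qe H S e, al H S e h = ∑ h ∈ Qe H S e, (Lz H S e - 240) := by
      refine Finset.sum_congr rfl fun h _ => ?_
      unfold al
      rw [if_neg hL, if_pos hq2]
    rw [h1, Finset.sum_const, hq2]
    simp only [smul_eq_mul, one_mul]
    omega
  rcases hH.info hS he with h1 | h1 | h1 | h1 | h1
  · exact absurd h1 hL
  · obtain ⟨a, b, c, d, f, g, -⟩ := h1
    by_cases hq3 : 3 ≤ (Qe H S e).card
    · have h2 : ∑ h ∈ Qe H S e, 6 ≤ ∑ h ∈ Qe H S e, (al H S e h +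
          if ∃ i, h i = e i ∧ dd H e i = 2 then 3 else 0) := by
        refine Finset.sum_le_sum fun h _ => ?_
        unfold al
        rw [if_neg hL, if_neg hq2, if_pos b, if_pos a]
        by_cases h3 : ∃ i, h i = e i ∧ dd H e i = 2
        · rw [if_pos ⟨h3, hq3⟩, if_pos h3]
        · rw [if_neg (fun h4 => h3 h4.1), if_neg h3]
      rw [Finset.sum_add_distrib, ← Finset.sum_filter, Finset.sum_const, Finset.sum_const] at h2
      have h3 := hS.deg2_le he a
      simp only [smul_eq_mul] at h2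
      omega
    · have h2 : ∑ h ∈ Qe H S e, al H S e h = ∑ h ∈ Qe H S e, 6 := by
        refine Finset.sum_congr rfl fun h _ => ?_
        unfold al
        rw [if_neg hL, if_neg hq2, if_pos b, if_pos a, if_neg (fun h4 => hq3 h4.2)]
      rw [h2, Finset.sum_const]
      simp only [smul_eq_mul]
      omega
  · obtain ⟨a, b, c, d, f, g, -⟩ := h1
    have h2 : ∑ h ∈ Qe H S e, al H S e h = ∑ h ∈ Qe H S e, 6 := by
      refine Finset.sum_congr rfl fun h _ => ?_
      unfold al
      rw [if_neg hL, if_neg hq2, if_pos b, if_neg (by omega)]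
    rw [h2, Finset.sum_const]
    simp only [smul_eq_mul]
    omega
  · obtain ⟨a, b, c, d, f, g⟩ := h1
    have h2 : ∑ h ∈ Qe H S e, al H S e h = ∑ h ∈ Qe H S e, 4 := by
      refine Finset.sum_congr rfl fun h _ => ?_
      unfold al
      rw [if_neg hL, if_neg hq2, if_neg (by omega), if_pos a]
    rw [h2, Finset.sum_const]
    simp only [smul_eq_mul]
    omega
  · obtain ⟨a, b, c, d, f, g⟩ := h1
    have h2 : ∑ h ∈ Qe H S e, al H S e h = ∑ h ∈ Qe H S e, 1 := by
      refine Finset.sum_congr rfl fun h _ => ?_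
      unfold al
      rw [if_neg hL, if_neg hq2, if_neg (by omega), if_neg (by omega)]
    rw [h2, Finset.sum_const]
    simp only [smul_eq_mul]
    omega

/-- an edge of type (4,4,4,2,2) with exactly one non-private neighbour meets it in a vertex of
degree two -/
theorem Cex.lemD (hH : Cex H) (hS : MS H S) {e h : Edge V} (he : e ∈ S) (h2 : nu H 2 e = 2)
    (hq : (Qe H S e).card = 1) (hh : h ∈ Qe H S e) : ∃ i, h i = e i ∧ dd H e i = 2 := by
  by_contra hcon
  push Not at hcon
  unfold nu at h2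
  obtain ⟨i, j, hij, hset⟩ := Finset.card_eq_two.1 h2
  have hi : dd H e i = 2 := by
    have : i ∈ Finset.univ.filter (fun i => dd H e i = 2) := by
      rw [hset]; exact Finset.mem_insert_self _ _
    exact (Finset.mem_filter.1 this).2
  have hj : dd H e j = 2 := by
    have : j ∈ Finset.univ.filter (fun i => dd H e i = 2) := by
      rw [hset]; exact Finset.mem_insert_of_mem (Finset.mem_singleton_self _)
    exact (Finset.mem_filter.1 this).2
  have heH := hS.sub he
  obtain ⟨a, haH, hae, hai, haall⟩ := two_edges heH hi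
  obtain ⟨b, hbH, hbe, hbj, hball⟩ := two_edges heH hj
  have hQ : ∀ x ∈ Qe H S e, x = h := by
    intro x hx
    exact Finset.card_le_one.1 (by omega) x hx h hh
  have hF : ∀ x ∈ H, (∃ k, x k = e k ∧ dd H e k = 2) → x ∈ Fe H S e := by
    intro x hx ⟨k, hk, hk2⟩
    by_contra hxF
    have : x ∈ Qe H S e := by
      unfold Qe
      rw [Finset.mem_filter]
      refine ⟨hx, ⟨k, hk⟩, fun h1 => hxF ?_⟩
      unfold Fe
      rw [Finset.mem_filter]
      exact ⟨hx, h1⟩
    rw [hQ x this] at hk
    exact hcon k hk hk2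
  obtain ⟨m, hm⟩ := hS.inter he a (hF a haH ⟨i, hai, hi⟩) b (hF b hbH ⟨j, hbj, hj⟩)
  set C : Finset ((i : Fin 5) × V i) := insert (⟨m, a m⟩ : (i : Fin 5) × V i)
    (((Finset.univ.erase i).erase j).image (fun k => (⟨k, e k⟩ : (i : Fin 5) × V i))) with hC
  have hji : j ∈ Finset.univ.erase i := Finset.mem_erase.2 ⟨hij.symm, Finset.mem_univ j⟩
  have hC4 : C.card ≤ 4 := by
    refine (Finset.card_insert_le _ _).trans ?_
    have h3 : (((Finset.univ.erase i).erase j).image
        (fun k => (⟨k, e k⟩ : (i : Fin 5) × V i))).card ≤ 3 := by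
      refine Finset.card_image_le.trans ?_
      rw [Finset.card_erase_of_mem hji, Finset.card_erase_of_mem (Finset.mem_univ i)]
      simp
    omega
  obtain ⟨g, hgH, ⟨k, hk⟩, hav⟩ := hH.av heH C hC4
  have hmem : ∀ k, k ≠ i → k ≠ j → (⟨k, e k⟩ : (i : Fin 5) × V i) ∈ C := by
    intro k hki hkj
    rw [hC]
    refine Finset.mem_insert_of_mem (Finset.mem_image.2 ⟨k, ?_, rfl⟩)
    exact Finset.mem_erase.2 ⟨hkj, Finset.mem_erase.2 ⟨hki, Finset.mem_univ k⟩⟩
  have hge : g ≠ e := by
    rintro rfl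
    obtain ⟨k, hk⟩ : ((Finset.univ.erase i).erase j).Nonempty := by
      rw [← Finset.card_pos, Finset.card_erase_of_mem hji,
        Finset.card_erase_of_mem (Finset.mem_univ i)]
      simp
    rw [Finset.mem_erase, Finset.mem_erase] at hk
    exact hav k (hmem k hk.2.1 hk.1)
  by_cases hki : k = i
  · rw [hki] at hk
    rcases haall g hgH hk.symm with h3 | h3
    · exact hge h3
    · refine hav m ?_
      rw [h3, hC]
      exact Finset.mem_insert_self _ _
  · by_cases hkj : k = j
    · rw [hkj] at hk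
      rcases hball g hgH hk.symm with h3 | h3
      · exact hge h3
      · refine hav m ?_
        rw [h3, ← hm, hC]
        exact Finset.mem_insert_self _ _
    · refine hav k ?_
      rw [← hk]
      exact hmem k hki hkj

/-- the gain at the common vertices of `e` and `h` -/
noncomputable def rho (H : Finset (Edge V)) (e h : Edge V) : ℕ :=
  ∑ i, if h i = e i then 6 - 12 / dd H h i else 0

theorem rho_ge {e h : Edge V} {i : Fin 5} (hi : h i = e i) : 6 - 12 / dd H e i ≤ rho H e h := by
  unfold rho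
  have := Finset.single_le_sum (f := fun i => if h i = e i then 6 - 12 / dd H h i else 0)
    (fun _ _ => Nat.zero_le _) (Finset.mem_univ i)
  simp only [if_pos hi] at this
  rwa [dd_congr hi] at this

theorem Cex.rho_le (hH : Cex H) (hS : MS H S) {e e' h : Edge V} (he : e ∈ S) (he' : e' ∈ S)
    (hne : e ≠ e') (hh : h ∈ H) : cc H h + rho H e h + rho H e' h ≤ 30 := by
  unfold cc rho
  rw [← Finset.sum_add_distrib, ← Finset.sum_add_distrib]
  have : ∑ i : Fin 5, 6 = 30 := by simp
  rw [← this]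
  refine Finset.sum_le_sum fun i _ => ?_
  have h1 : 12 / dd H h i ≤ 6 := by
    rcases hH.deg' hh i with h2 | h2 | h2 <;> rw [h2] <;> norm_num
  by_cases h2 : h i = e i
  · have h3 : ¬ h i = e' i := fun h4 => hS.mat e he e' he' hne ⟨i, h2.symm.trans h4⟩
    rw [if_pos h2, if_neg h3]
    omega
  · rw [if_neg h2]
    split_ifs <;> omega

theorem Cex.needy (hH : Cex H) (hS : MS H S) {e e' h : Edge V} (hne : e ≠ e') (hh : h ∈ H)
    (hSn : Sn S h = {e, e'})
    (hB : ¬ (nu H 2 e = 2 ∧ nu H 3 e = 0 ∧ (Qe H S e).card = 1 ∧ 240 < Lz H S e)) :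
    al H S e h + 15 ≤ cc H e + rho H e h ∨ ∃ p ∈ Fe H S e, ¬ mt p h := by
  have hem : e ∈ Sn S h := by rw [hSn]; exact Finset.mem_insert_self _ _
  obtain ⟨heS, i, hi⟩ := mem_Sn.1 hem
  have heH := hS.sub heS
  have hhQ : h ∈ Qe H S e := by
    unfold Qe
    rw [Finset.mem_filter]
    refine ⟨hh, ⟨i, hi⟩, fun h1 => ?_⟩
    have : e' ∈ Sn S h := by
      rw [hSn]
      exact Finset.mem_insert_of_mem (Finset.mem_singleton_self _)
    rw [h1, Finset.mem_singleton] at this
    exact hne this.symm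
  have hq : 1 ≤ (Qe H S e).card := Finset.card_pos.2 ⟨h, hhQ⟩
  have hcc := hH.cc_ge heH
  by_cases hL : Lz H S e ≤ 240
  · left
    unfold al
    rw [if_pos hL]
    omega
  have hal := hH.al_le hS heS h
  have hinfo := hH.info hS heS
  rcases hinfo with h1 | h1 | h1 | h1 | h1
  · exact absurd h1 hL
  · -- type A
    obtain ⟨a, b, c, d, f, g, k⟩ := h1
    by_cases hq1 : (Qe H S e).card = 1
    · right
      refine hH.exists_p hS hne hh hSn hi ?_
      have := hH.deg e heH i
      omega
    · by_cases hex : ∃ i, h i = e i ∧ dd H e i = 2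
      · obtain ⟨j, hj, hj2⟩ := hex
        by_cases hq2 : (Qe H S e).card = 2
        · right
          refine hH.exists_p hS hne hh hSn hj ?_
          omega
        · left
          unfold al
          rw [if_neg hL, if_neg hq1, if_pos b, if_pos a, if_pos ⟨⟨j, hj, hj2⟩, by omega⟩]
          omega
      · left
        have hd : dd H e i = 4 := by
          rcases hH.deg' heH i with h5 | h5 | h5
          · exact absurd ⟨i, hi, h5⟩ hex
          · have := nu_pos h5
            omega
          · exact h5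
        have h6 := rho_ge (H := H) hi
        rw [hd] at h6
        unfold al
        rw [if_neg hL, if_neg hq1, if_pos b, if_pos a, if_neg (fun h7 => hex h7.1)]
        omega
  · -- type B
    obtain ⟨a, b, c, d, f, g, k⟩ := h1
    left
    unfold al
    rw [if_neg hL, if_neg (fun h5 => hB ⟨a, b, h5, by omega⟩), if_pos b, if_neg (by omega)]
    omega
  · -- type C
    obtain ⟨a, b, c, d, f, g⟩ := h1
    by_cases hq1 : (Qe H S e).card = 1
    · rcases hH.deg' heH i with h5 | h5 | h5
      · right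
        refine hH.exists_p hS hne hh hSn hi ?_
        omega
      · right
        refine hH.exists_p hS hne hh hSn hi ?_
        omega
      · left
        have h6 := rho_ge (H := H) hi
        rw [h5] at h6
        have := hal.2.2 hB
        omega
    · left
      unfold al
      rw [if_neg hL, if_neg hq1, if_neg (by omega), if_pos a]
      omega
  · left
    have := hal.2.2 hB
    omega

/-- the exchange in the case of a private edge disjoint from `h` -/
theorem Cex.caseB (hH : Cex H) (hS : MS H S) {e e' h : Edge V} (hne : e ≠ e') (hh : h ∈ H)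
    (hSn : Sn S h = {e, e'})
    (hB : nu H 2 e = 2 ∧ nu H 3 e = 0 ∧ (Qe H S e).card = 1 ∧ 240 < Lz H S e) :
    cc H h + al H S e h + al H S e' h ≤ cc H e + cc H e' := by
  have hem : e ∈ Sn S h := by rw [hSn]; exact Finset.mem_insert_self _ _
  have hem' : e' ∈ Sn S h := by
    rw [hSn]
    exact Finset.mem_insert_of_mem (Finset.mem_singleton_self _)
  have heS := (mem_Sn.1 hem).1
  have he'S := (mem_Sn.1 hem').1
  have hhQ : h ∈ Qe H S e := by
    unfold Qe
    rw [Finset.mem_filter]
    refine ⟨hh, (mem_Sn.1 hem).2, fun h1 => ?_⟩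
    rw [h1, Finset.mem_singleton] at hem'
    exact hne hem'.symm
  obtain ⟨i, hi, hi2⟩ := hH.lemD hS heS hB.1 hB.2.2.1 hhQ
  have hinfo := hH.info hS heS
  have hF : (Fe H S e).card = 11 ∧ cc H e = 21 := by omega
  obtain ⟨p, hp, hph⟩ := hH.exists_p hS hne hh hSn hi (by omega)
  have h1 := hS.exch hne hh hSn hp hph
  have h2 : al H S e h = Lz H S e - 240 := by
    unfold al
    rw [if_neg (by omega), if_pos hB.2.2.1]
  have h3 : ∑ g ∈ Fe H S e, cc H g ≤ cc H p + 210 := by
    rw [← Finset.add_sum_erase _ _ hp]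
    refine Nat.add_le_add_left ?_ _
    have h4 : ∑ g ∈ (Fe H S e).erase p, cc H g ≤ ∑ g ∈ (Fe H S e).erase p, 21 := by
      refine Finset.sum_le_sum fun g hg => ?_
      rw [← hF.2]
      exact hS.swap heS (Finset.mem_of_mem_erase hg)
    rw [Finset.sum_const, Finset.card_erase_of_mem hp, hF.1] at h4
    simpa using h4
  have h4 : Lz H S e ≤ cc H p + 231 := by
    unfold Lz
    rw [hB.2.2.1, hF.2]
    omega
  have h5 := hH.al_le hS he'S h
  have h6 := hH.cc_ge (Finset.filter_subset _ _ hp : p ∈ H)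
  omega

theorem Cex.goal2 (hH : Cex H) (hS : MS H S) {h : Edge V} (hh : h ∈ H)
    (hk : 2 ≤ (Sn S h).card) :
    cc H h + ∑ e ∈ Sn S h, al H S e h ≤ ∑ e ∈ Sn S h, cc H e := by
  by_cases hk3 : 3 ≤ (Sn S h).card
  · have h1 : ∑ e ∈ Sn S h, (al H S e h + 10) ≤ ∑ e ∈ Sn S h, cc H e :=
      Finset.sum_le_sum fun e he => (hH.al_le hS (mem_Sn.1 he).1 h).2.1
    rw [Finset.sum_add_distrib, Finset.sum_const, smul_eq_mul] at h1
    have h2 := hH.cc_ge hh
    omega
  · obtain ⟨e, e', hne, hSn⟩ := Finset.card_eq_two.1 (by omega : (Sn S h).card = 2)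
    have hem : e ∈ Sn S h := by rw [hSn]; exact Finset.mem_insert_self _ _
    have hem' : e' ∈ Sn S h := by
      rw [hSn]
      exact Finset.mem_insert_of_mem (Finset.mem_singleton_self _)
    have heS := (mem_Sn.1 hem).1
    have he'S := (mem_Sn.1 hem').1
    have hSn' : Sn S h = {e', e} := by rw [hSn, Finset.pair_comm]
    rw [hSn, Finset.sum_pair hne, Finset.sum_pair hne]
    by_cases hB : nu H 2 e = 2 ∧ nu H 3 e = 0 ∧ (Qe H S e).card = 1 ∧ 240 < Lz H S e
    · have := hH.caseB hS hne hh hSn hB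
      omega
    by_cases hB' : nu H 2 e' = 2 ∧ nu H 3 e' = 0 ∧ (Qe H S e').card = 1 ∧ 240 < Lz H S e'
    · have := hH.caseB hS hne.symm hh hSn' hB'
      omega
    have h1 := (hH.al_le hS heS h).2.2 hB
    have h2 := (hH.al_le hS he'S h).2.2 hB'
    rcases hH.needy hS hne hh hSn hB with h3 | ⟨p, hp, hph⟩
    · rcases hH.needy hS hne.symm hh hSn' hB' with h4 | ⟨p, hp, hph⟩
      · have h5 := hH.rho_le hS heS he'S hne hh
        omega
      · have h5 := hS.exch hne.symm hh hSn' hp hph
        have h6 := hH.cc_ge (Finset.filter_subset _ _ hp : p ∈ H)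
        omega
    · have h5 := hS.exch hne hh hSn hp hph
      have h6 := hH.cc_ge (Finset.filter_subset _ _ hp : p ∈ H)
      omega

/-- the total weight is large -/
theorem Cex.total (hH : Cex H) (hS : MS H S) : 240 * S.card + 60 ≤ ∑ g ∈ H, cc H g := by
  unfold cc
  rw [Finset.sum_comm]
  have h1 : ∑ i : Fin 5, (48 * S.card + 12) ≤ ∑ i : Fin 5, ∑ g ∈ H, 12 / dd H g i := by
    refine Finset.sum_le_sum fun i _ => ?_
    rw [sum_div H i fun g hg => hH.deg g hg i]
    have := hH.cls hS.sub hS.mat i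
    omega
  rw [Finset.sum_const] at h1
  simp only [Finset.card_univ, Fintype.card_fin, smul_eq_mul] at h1
  omega

theorem Cex.q_pos (hH : Cex H) (hS : MS H S) {e : Edge V} (he : e ∈ S) :
    Lz H S e ≤ 240 ∨ 1 ≤ (Qe H S e).card := by
  by_contra hcon
  push Not at hcon
  obtain ⟨hL, hq⟩ := hcon
  have hq0 : Qe H S e = ∅ := Finset.card_eq_zero.1 (by omega)
  have heH := hS.sub he
  have hNF : ∀ g ∈ H, mt g e → g ∈ Fe H S e := by
    intro g hg hm
    by_contra hgF
    have : g ∈ Qe H S e := by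
      unfold Qe
      rw [Finset.mem_filter]
      refine ⟨hg, hm, fun h1 => hgF ?_⟩
      unfold Fe
      rw [Finset.mem_filter]
      exact ⟨hg, h1⟩
    rw [hq0] at this
    simp at this
  by_cases hF : Fe H S e = H
  · have hS1 : S.card ≤ 1 := by
      rw [Finset.card_le_one]
      have h1 : ∀ a ∈ S, a = e := by
        intro a ha
        have haH := hS.sub ha
        rw [← hF] at haH
        unfold Fe at haH
        rw [Finset.mem_filter, Sn_self hS.mat ha] at haH
        exact Finset.singleton_injective haH.2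
      intro a ha b hb
      rw [h1 a ha, h1 b hb]
    have hS2 : 1 ≤ S.card := Finset.card_pos.2 ⟨e, he⟩
    have h2 := hH.total hS
    have h3 : Lz H S e = ∑ g ∈ H, cc H g := by
      unfold Lz
      rw [hq0, hF]
      simp
    have h4 := hH.info hS he
    omega
  · have hss : Fe H S e ⊂ H :=
      Finset.ssubset_iff_subset_ne.2 ⟨Finset.filter_subset _ _, hF⟩
    obtain ⟨C, hC, hC4⟩ := hH.four hss (hS.inter he)
    obtain ⟨g, hgH, hm, hav⟩ := hH.av heH C hC4
    obtain ⟨i, hi⟩ := hC g (hNF g hgH (mt_comm.1 hm))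
    exact hav i hi

/-- there is no minimal counterexample -/
theorem no_cex : ¬ Cex H := by
  intro hH
  obtain ⟨S, hS⟩ := exists_MS H
  have htot := hH.total hS
  -- the charges
  have h1 : ∀ g ∈ H, cc H g ≤ ∑ e ∈ S, if mt g e then
      (if Sn S g = {e} then cc H g else cc H e - al H S e g) else 0 := by
    intro g hg
    rw [← Finset.sum_filter]
    change cc H g ≤ ∑ e ∈ Sn S g, if Sn S g = {e} then cc H g else cc H e - al H S e g
    have hpos := Finset.card_pos.2 (hS.Sn_nonempty hg)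
    by_cases hk : (Sn S g).card = 1
    · obtain ⟨e, he⟩ := Finset.card_eq_one.1 hk
      rw [he, Finset.sum_singleton, if_pos rfl]
    · have h2 := hH.goal2 hS hg (by omega)
      have h3 : ∑ e ∈ Sn S g, (if Sn S g = {e} then cc H g else cc H e - al H S e g) +
          ∑ e ∈ Sn S g, al H S e g = ∑ e ∈ Sn S g, cc H e := by
        rw [← Finset.sum_add_distrib]
        refine Finset.sum_congr rfl fun e he => ?_
        rw [if_neg (by
          intro h4
          apply hk
          rw [h4, Finset.card_singleton])]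
        have := (hH.al_le hS (mem_Sn.1 he).1 g).2.1
        omega
      omega
  have h2 := Finset.sum_le_sum h1
  rw [Finset.sum_comm] at h2
  have h3 : ∀ e ∈ S, ∑ g ∈ H, (if mt g e then
      (if Sn S g = {e} then cc H g else cc H e - al H S e g) else 0) ≤ 240 := by
    intro e he
    have h4 : ∑ g ∈ H, (if mt g e then
        (if Sn S g = {e} then cc H g else cc H e - al H S e g) else 0) =
        ∑ g ∈ Fe H S e, cc H g + ∑ g ∈ Qe H S e, (cc H e - al H S e g) := by
      unfold Fe Qe
      rw [Finset.sum_filter, Finset.sum_filter, ← Finset.sum_add_distrib]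
      refine Finset.sum_congr rfl fun g hg => ?_
      by_cases h5 : Sn S g = {e}
      · have h6 : mt g e := by
          have : e ∈ Sn S g := by rw [h5]; exact Finset.mem_singleton_self _
          exact (mem_Sn.1 this).2
        rw [if_pos h6, if_pos h5, if_pos h5, if_neg (fun h7 => h7.2 h5)]
        rfl
      · rw [if_neg h5, if_neg h5]
        by_cases h6 : mt g e
        · rw [if_pos h6, if_pos ⟨h6, h5⟩, zero_add]
        · rw [if_neg h6, if_neg (fun h7 => h6 h7.1), add_zero]
    have h5 : ∑ g ∈ Qe H S e, (cc H e - al H S e g) + ∑ g ∈ Qe H S e, al H S e g =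
        (Qe H S e).card * cc H e := by
      rw [← Finset.sum_add_distrib, ← smul_eq_mul, ← Finset.sum_const]
      refine Finset.sum_congr rfl fun g _ => ?_
      have := (hH.al_le hS he g).2.1
      omega
    have h6 := hH.goal1 hS he (hH.q_pos hS he)
    rw [h4]
    unfold Lz at h6
    omega
  have h4 := Finset.sum_le_sum h3
  rw [Finset.sum_const, smul_eq_mul] at h4
  omega

/-- **Ryser's conjecture for 5-partite hypergraphs of maximum degree at most 4.** -/
theorem all_ok : ∀ (n : ℕ) (H : Finset (Edge V)), H.card = n →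
    (∀ g ∈ H, ∀ i, dd H g i ≤ 4) → Ok H := by
  intro n
  induction n using Nat.strong_induction_on with
  | _ n ih =>
    intro H hn hd
    by_contra hno
    refine no_cex (H := H) ⟨hd, fun H' hH' => ?_, hno⟩
    refine ih H'.card ?_ H' rfl fun g hg i => ?_
    · rw [← hn]
      exact Finset.card_lt_card hH'
    · exact (dd_mono hH'.1 g i).trans (hd g (hH'.1 hg) i)

theorem ryser (H : Finset (Edge V))
    (hd : ∀ (i : Fin 5) (x : V i), Set.ncard {g : Edge V | g ∈ H ∧ g i = x} ≤ 4) :
    coverNumber H ≤ 4 * matchingNumber H := by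
  obtain ⟨M, hMH, hM, C, hC, hc⟩ := all_ok H.card H rfl (by
    intro g hg i
    have h1 := hd i (g i)
    have h2 : {x : Edge V | x ∈ H ∧ x i = g i} =
        ((H.filter (fun x => x i = g i) : Finset (Edge V)) : Set (Edge V)) := by
      ext x
      simp
    rw [h2, Set.ncard_coe_finset] at h1
    exact h1)
  have h1 : coverNumber H ≤ C.card := by
    unfold coverNumber
    exact Nat.sInf_le ⟨C, hC, rfl⟩
  have h2 : M.card ≤ matchingNumber H := by
    unfold matchingNumber
    refine le_csSup ⟨H.card, ?_⟩ ⟨M, hMH, ?_, rfl⟩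
    · rintro n ⟨M', hM', -, rfl⟩
      exact Finset.card_le_card hM'
    · intro e he f hf hef i hi
      exact hM e he f hf hef ⟨i, hi⟩
  omega

end Pool.Agent.Lib.MP_3edce6_co
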