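import Pool.Agent.Lib.MP_3edce6_co.LemB

/-!
MP_3edce6_co: optimal maximum matchings and exchanges.
-/

namespace Pool.Agent.Lib.MP_3edce6_co

open Finset N00f51e3f
open scoped Classical

universe u
variable {V : Fin 5 → Type u} {H S : Finset (Edge V)}

/-- a maximum matching of maximal weight -/
structure MS (H S : Finset (Edge V)) : Prop where
  sub : S ⊆ H
  mat : Mt S
  max : ∀ M ⊆ H, Mt M → M.card ≤ S.card
  opt : ∀ M ⊆ H, Mt M → M.card = S.card → ∑ g ∈ M, cc H g ≤ ∑ g ∈ S, cc H g

theorem exists_MS (H : Finset (Edge V)) : ∃ S, MS H S := by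
  obtain ⟨S0, hS0, hmax⟩ := Finset.exists_max_image (H.powerset.filter Mt) Finset.card
    ⟨∅, Finset.mem_filter.2 ⟨Finset.mem_powerset.2 (Finset.empty_subset _), fun e he => by
      simp at he⟩⟩
  obtain ⟨S, hS, hopt⟩ := Finset.exists_max_image
    ((H.powerset.filter Mt).filter (fun M => M.card = S0.card)) (fun M => ∑ g ∈ M, cc H g)
    ⟨S0, Finset.mem_filter.2 ⟨hS0, rfl⟩⟩
  rw [Finset.mem_filter, Finset.mem_filter, Finset.mem_powerset] at hS
  refine ⟨S, hS.1.1, hS.1.2, fun M hM hM2 => ?_, fun M hM hM2 hM3 => ?_⟩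
  · rw [hS.2]
    exact hmax M (Finset.mem_filter.2 ⟨Finset.mem_powerset.2 hM, hM2⟩)
  · refine hopt M ?_
    rw [Finset.mem_filter, Finset.mem_filter, Finset.mem_powerset]
    exact ⟨⟨hM, hM2⟩, hM3.trans hS.2⟩

/-- the members of the matching that meet `g` -/
noncomputable def Sn (S : Finset (Edge V)) (g : Edge V) : Finset (Edge V) :=
  S.filter (fun e => mt g e)

/-- the private family of `e` -/
noncomputable def Fe (H S : Finset (Edge V)) (e : Edge V) : Finset (Edge V) :=
  H.filter (fun g => Sn S g = {e})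

/-- the other neighbours of `e` -/
noncomputable def Qe (H S : Finset (Edge V)) (e : Edge V) : Finset (Edge V) :=
  H.filter (fun g => mt g e ∧ Sn S g ≠ {e})

/-- the closed neighbourhood of `e` -/
noncomputable def Ne (H : Finset (Edge V)) (e : Edge V) : Finset (Edge V) :=
  H.filter (fun g => mt g e)

theorem mem_Sn {g e : Edge V} : e ∈ Sn S g ↔ e ∈ S ∧ mt g e := Finset.mem_filter

theorem MS.repl (hS : MS H S) {A B : Finset (Edge V)} (hA : A ⊆ S) (hB : B ⊆ H) (hBm : Mt B)
    (hAB : ∀ g ∈ B, Sn S g ⊆ A) :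
    B.card ≤ A.card ∧ (B.card = A.card → ∑ g ∈ B, cc H g ≤ ∑ g ∈ A, cc H g) := by
  have hdis : Disjoint (S \ A) B := by
    rw [Finset.disjoint_left]
    intro g hg hgB
    rw [Finset.mem_sdiff] at hg
    exact hg.2 (hAB g hgB (mem_Sn.2 ⟨hg.1, mt_self g⟩))
  have hMH : (S \ A) ∪ B ⊆ H :=
    Finset.union_subset (Finset.sdiff_subset.trans hS.sub) hB
  have hcross : ∀ f ∈ S \ A, ∀ g ∈ B, ¬ mt f g := by
    intro f hf g hg hm
    rw [Finset.mem_sdiff] at hf
    exact hf.2 (hAB g hg (mem_Sn.2 ⟨hf.1, mt_comm.1 hm⟩))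
  have hMm : Mt ((S \ A) ∪ B) := by
    intro f hf g hg hfg
    rcases Finset.mem_union.1 hf with hf1 | hf1
    · rcases Finset.mem_union.1 hg with hg1 | hg1
      · exact hS.mat f (Finset.mem_sdiff.1 hf1).1 g (Finset.mem_sdiff.1 hg1).1 hfg
      · exact hcross f hf1 g hg1
    · rcases Finset.mem_union.1 hg with hg1 | hg1
      · exact fun hm => hcross g hg1 f hf1 (mt_comm.1 hm)
      · exact hBm f hf1 g hg1 hfg
  have hcard : ((S \ A) ∪ B).card + A.card = S.card + B.card := by
    rw [Finset.card_union_of_disjoint hdis, Finset.card_sdiff_of_subset hA]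
    have := Finset.card_le_card hA
    omega
  have h1 := hS.max _ hMH hMm
  refine ⟨by omega, fun hBA => ?_⟩
  have h2 := hS.opt _ hMH hMm (by omega)
  rw [Finset.sum_union hdis] at h2
  have h3 := Finset.sum_sdiff (f := fun g => cc H g) hA
  omega

theorem MS.Sn_nonempty (hS : MS H S) {g : Edge V} (hg : g ∈ H) : (Sn S g).Nonempty := by
  rw [Finset.nonempty_iff_ne_empty]
  intro h0
  have := (hS.repl (A := ∅) (B := {g}) (Finset.empty_subset _)
    (Finset.singleton_subset_iff.2 hg) (by
      intro a ha b hb hab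
      rw [Finset.mem_singleton] at ha hb
      exact absurd (ha.trans hb.symm) hab) (by
      intro x hx
      rw [Finset.mem_singleton] at hx
      rw [hx, h0])).1
  simp at this

theorem Sn_self (hM : Mt S) {e : Edge V} (he : e ∈ S) : Sn S e = {e} := by
  ext f
  rw [mem_Sn, Finset.mem_singleton]
  constructor
  · rintro ⟨hf, hm⟩
    by_contra hne
    exact hM e he f hf (fun h => hne h.symm) hm
  · rintro rfl
    exact ⟨he, mt_self _⟩

theorem MS.swap (hS : MS H S) {e g : Edge V} (he : e ∈ S) (hg : g ∈ Fe H S e) :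
    cc H g ≤ cc H e := by
  unfold Fe at hg
  rw [Finset.mem_filter] at hg
  have := (hS.repl (A := {e}) (B := {g}) (Finset.singleton_subset_iff.2 he)
    (Finset.singleton_subset_iff.2 hg.1) (by
      intro a ha b hb hab
      rw [Finset.mem_singleton] at ha hb
      exact absurd (ha.trans hb.symm) hab) (by
      intro x hx
      rw [Finset.mem_singleton] at hx
      rw [hx, hg.2])).2 (by simp)
  simpa using this

theorem MS.inter (hS : MS H S) {e : Edge V} (he : e ∈ S) :
    ∀ g ∈ Fe H S e, ∀ g' ∈ Fe H S e, mt g g' := by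
  intro g hg g' hg'
  by_contra hm
  unfold Fe at hg hg'
  rw [Finset.mem_filter] at hg hg'
  have hne : g ≠ g' := by
    rintro rfl
    exact hm (mt_self g)
  have := (hS.repl (A := {e}) (B := {g, g'}) (Finset.singleton_subset_iff.2 he) (by
      intro x hx
      rw [Finset.mem_insert, Finset.mem_singleton] at hx
      rcases hx with rfl | rfl
      · exact hg.1
      · exact hg'.1) (by
      intro a ha b hb hab
      rw [Finset.mem_insert, Finset.mem_singleton] at ha hb
      rcases ha with rfl | rfl
      · rcases hb with rfl | rfl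
        · exact absurd rfl hab
        · exact hm
      · rcases hb with rfl | rfl
        · exact fun h => hm (mt_comm.1 h)
        · exact absurd rfl hab) (by
      intro x hx
      rw [Finset.mem_insert, Finset.mem_singleton] at hx
      rcases hx with rfl | rfl
      · rw [hg.2]
      · rw [hg'.2])).1
  rw [Finset.card_pair hne, Finset.card_singleton] at this
  omega

theorem MS.exch (hS : MS H S) {e e' p h : Edge V} (hne : e ≠ e') (hh : h ∈ H)
    (hSn : Sn S h = {e, e'}) (hp : p ∈ Fe H S e) (hph : ¬ mt p h) :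
    cc H p + cc H h ≤ cc H e + cc H e' := by
  unfold Fe at hp
  rw [Finset.mem_filter] at hp
  have hneq : p ≠ h := by
    rintro rfl
    exact hph (mt_self p)
  have he : e ∈ S := by
    have : e ∈ Sn S h := by rw [hSn]; exact Finset.mem_insert_self _ _
    exact (mem_Sn.1 this).1
  have he' : e' ∈ S := by
    have : e' ∈ Sn S h := by
      rw [hSn]
      exact Finset.mem_insert_of_mem (Finset.mem_singleton_self _)
    exact (mem_Sn.1 this).1
  have := (hS.repl (A := {e, e'}) (B := {p, h}) (by
      intro x hx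
      rw [Finset.mem_insert, Finset.mem_singleton] at hx
      rcases hx with rfl | rfl
      · exact he
      · exact he') (by
      intro x hx
      rw [Finset.mem_insert, Finset.mem_singleton] at hx
      rcases hx with rfl | rfl
      · exact hp.1
      · exact hh) (by
      intro a ha b hb hab
      rw [Finset.mem_insert, Finset.mem_singleton] at ha hb
      rcases ha with rfl | rfl
      · rcases hb with rfl | rfl
        · exact absurd rfl hab
        · exact hph
      · rcases hb with rfl | rfl
        · exact fun h => hph (mt_comm.1 h)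
        · exact absurd rfl hab) (by
      intro x hx
      rw [Finset.mem_insert, Finset.mem_singleton] at hx
      rcases hx with rfl | rfl
      · rw [hp.2]
        exact Finset.singleton_subset_iff.2 (Finset.mem_insert_self _ _)
      · rw [hSn])).2 (by rw [Finset.card_pair hne, Finset.card_pair hneq])
  rwa [Finset.sum_pair hneq, Finset.sum_pair hne] at this

theorem Fe_sub_Ne {e : Edge V} : Fe H S e ⊆ Ne H e := by
  intro g hg
  unfold Fe at hg
  unfold Ne
  rw [Finset.mem_filter] at hg ⊢
  have : e ∈ Sn S g := by rw [hg.2]; exact Finset.mem_singleton_self _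
  exact ⟨hg.1, (mem_Sn.1 this).2⟩

theorem Ne_split (e : Edge V) : (Fe H S e).card + (Qe H S e).card = (Ne H e).card := by
  rw [← Finset.card_union_of_disjoint]
  · congr 1
    ext g
    unfold Fe Qe Ne
    rw [Finset.mem_union, Finset.mem_filter, Finset.mem_filter, Finset.mem_filter]
    constructor
    · rintro (h | h)
      · refine ⟨h.1, ?_⟩
        have : e ∈ Sn S g := by rw [h.2]; exact Finset.mem_singleton_self _
        exact (mem_Sn.1 this).2
      · exact ⟨h.1, h.2.1⟩
    · rintro ⟨h1, h2⟩
      by_cases h3 : Sn S g = {e}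
      · exact Or.inl ⟨h1, h3⟩
      · exact Or.inr ⟨h1, h2, h3⟩
  · rw [Finset.disjoint_left]
    intro g hg hg'
    unfold Fe at hg
    unfold Qe at hg'
    rw [Finset.mem_filter] at hg hg'
    exact hg'.2.2 hg.2

theorem Ne_card {e : Edge V} (he : e ∈ H) : (Ne H e).card + 4 ≤ ss H e := by
  have heN : e ∈ Ne H e := Finset.mem_filter.2 ⟨he, mt_self e⟩
  have h0 : ss H e = ∑ g' ∈ H, (Finset.univ.filter (fun i => g' i = e i)).card := dsum H e
  rw [h0]
  have h1 : ∑ g' ∈ Ne H e, (Finset.univ.filter (fun i => g' i = e i)).card ≤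
      ∑ g' ∈ H, (Finset.univ.filter (fun i => g' i = e i)).card :=
    Finset.sum_le_sum_of_subset_of_nonneg (Finset.filter_subset _ _) fun _ _ _ => Nat.zero_le _
  rw [← Finset.add_sum_erase (Ne H e) _ heN] at h1
  have h2 : (Finset.univ.filter (fun i : Fin 5 => e i = e i)).card = 5 := by simp
  rw [h2] at h1
  have h3 : ∑ g' ∈ (Ne H e).erase e, 1 ≤
      ∑ g' ∈ (Ne H e).erase e, (Finset.univ.filter (fun i => g' i = e i)).card := by
    refine Finset.sum_le_sum fun g' hg' => ?_
    obtain ⟨i, hi⟩ := (Finset.mem_filter.1 (Finset.mem_of_mem_erase hg')).2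
    exact Finset.card_pos.2 ⟨i, Finset.mem_filter.2 ⟨Finset.mem_univ i, hi⟩⟩
  rw [← Finset.card_eq_sum_ones, Finset.card_erase_of_mem heN] at h3
  have : 1 ≤ (Ne H e).card := Finset.card_pos.2 ⟨e, heN⟩
  omega

/-- the edges of the private family of `e` that meet a common neighbour of `e` and `e'` -/
theorem Cex.count (hH : Cex H) (hS : MS H S) {e e' h : Edge V} (hne : e ≠ e') (hh : h ∈ H)
    (hSn : Sn S h = {e, e'}) {i : Fin 5} (hi : h i = e i) :
    ((Fe H S e).filter (fun p => mt p h)).card ≤ dd H e i + 8 := by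
  have heS : e ∈ S := by
    have : e ∈ Sn S h := by rw [hSn]; exact Finset.mem_insert_self _ _
    exact (mem_Sn.1 this).1
  have he'm : e' ∈ Sn S h := by
    rw [hSn]
    exact Finset.mem_insert_of_mem (Finset.mem_singleton_self _)
  obtain ⟨he'S, i', hi'⟩ := mem_Sn.1 he'm
  have hii : i ≠ i' := by
    rintro rfl
    exact hS.mat e heS e' he'S hne ⟨i, hi.symm.trans hi'⟩
  have hhF : h ∉ Fe H S e := by
    intro hhF
    unfold Fe at hhF
    rw [Finset.mem_filter, hSn] at hhF
    have : e' ∈ ({e} : Finset (Edge V)) := by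
      rw [← hhF.2]
      exact Finset.mem_insert_of_mem (Finset.mem_singleton_self _)
    rw [Finset.mem_singleton] at this
    exact hne this.symm
  have hsub : Fe H S e ⊆ H := Finset.filter_subset _ _
  have h1 : ((Fe H S e).filter (fun p => mt p h)).card ≤ ∑ j, dd (Fe H S e) h j := by
    have h2 : (Fe H S e).filter (fun p => mt p h) ⊆
        Finset.univ.biUnion (fun j => (Fe H S e).filter (fun p => p j = h j)) := by
      intro p hp
      rw [Finset.mem_filter] at hp
      obtain ⟨j, hj⟩ := hp.2
      exact Finset.mem_biUnion.2 ⟨j, Finset.mem_univ j, Finset.mem_filter.2 ⟨hp.1, hj⟩⟩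
    exact (Finset.card_le_card h2).trans Finset.card_biUnion_le
  have h3 : ∀ j, dd (Fe H S e) h j + 1 ≤ dd H h j := fun j => dd_lt hsub hh hhF rfl
  have h4 : dd (Fe H S e) h i' = 0 := by
    unfold dd
    rw [Finset.card_eq_zero, Finset.filter_eq_empty_iff]
    intro p hp hpi
    unfold Fe at hp
    rw [Finset.mem_filter] at hp
    have : e' ∈ Sn S p := mem_Sn.2 ⟨he'S, ⟨i', hpi.trans hi'⟩⟩
    rw [hp.2, Finset.mem_singleton] at this
    exact hne this.symm
  have h5 : ∑ j, dd (Fe H S e) h j = dd (Fe H S e) h i + (dd (Fe H S e) h i' +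
      ∑ j ∈ (Finset.univ.erase i).erase i', dd (Fe H S e) h j) := by
    rw [Finset.add_sum_erase _ _ (Finset.mem_erase.2 ⟨hii.symm, Finset.mem_univ i'⟩),
      Finset.add_sum_erase _ _ (Finset.mem_univ i)]
  have h6 : ∑ j ∈ (Finset.univ.erase i).erase i', dd (Fe H S e) h j ≤
      ∑ j ∈ (Finset.univ.erase i).erase i', 3 := by
    refine Finset.sum_le_sum fun j _ => ?_
    have := h3 j
    have := hH.deg h hh j
    omega
  rw [Finset.sum_const, Finset.card_erase_of_mem (Finset.mem_erase.2 ⟨hii.symm,
    Finset.mem_univ i'⟩), Finset.card_erase_of_mem (Finset.mem_univ i)] at h6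
  simp only [Finset.card_univ, Fintype.card_fin, smul_eq_mul] at h6
  have h7 := h3 i
  have h8 : dd H h i = dd H e i := dd_congr hi
  omega

/-- existence of a private edge disjoint from a common neighbour -/
theorem Cex.exists_p (hH : Cex H) (hS : MS H S) {e e' h : Edge V} (hne : e ≠ e') (hh : h ∈ H)
    (hSn : Sn S h = {e, e'}) {i : Fin 5} (hi : h i = e i)
    (hlt : dd H e i + 8 < (Fe H S e).card) : ∃ p ∈ Fe H S e, ¬ mt p h := by
  by_contra hcon
  push Not at hcon
  have h1 := hH.count hS hne hh hSn hi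
  rw [Finset.filter_true_of_mem hcon] at h1
  omega

end Pool.Agent.Lib.MP_3edce6_co
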