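import Pool.Agent.Lib.MP_3edce6_co.Basic

/-!
MP_3edce6_co: degree types of edges and the two lemmas on large intersecting families.
-/

namespace Pool.Agent.Lib.MP_3edce6_co

open Finset N00f51e3f
open scoped Classical

universe u
variable {V : Fin 5 → Type u} {H : Finset (Edge V)}

/-- the weight of an edge -/
noncomputable def cc (H : Finset (Edge V)) (g : Edge V) : ℕ := ∑ i, 12 / dd H g i

/-- the degree sum of an edge -/
noncomputable def ss (H : Finset (Edge V)) (g : Edge V) : ℕ := ∑ i, dd H g i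

/-- the number of classes in which the vertex of `g` has degree `m` -/
noncomputable def nu (H : Finset (Edge V)) (m : ℕ) (g : Edge V) : ℕ :=
  (Finset.univ.filter (fun i => dd H g i = m)).card

theorem nu_pos {m : ℕ} {g : Edge V} {i : Fin 5} (hi : dd H g i = m) : 1 ≤ nu H m g :=
  Finset.card_pos.2 ⟨i, Finset.mem_filter.2 ⟨Finset.mem_univ i, hi⟩⟩

theorem Cex.deg' (h : Cex H) {g : Edge V} (hg : g ∈ H) (i : Fin 5) :
    dd H g i = 2 ∨ dd H g i = 3 ∨ dd H g i = 4 := by
  have h1 := h.deg g hg i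
  have h2 := h.deg2 hg i
  omega

theorem Cex.typ (h : Cex H) {g : Edge V} (hg : g ∈ H) :
    nu H 2 g + nu H 3 g + nu H 4 g = 5 ∧ ss H g = 2 * nu H 2 g + 3 * nu H 3 g + 4 * nu H 4 g ∧
      cc H g = 6 * nu H 2 g + 4 * nu H 3 g + 3 * nu H 4 g := by
  have key : ∀ f : ℕ → ℕ, ∑ i, f (dd H g i) =
      f 2 * nu H 2 g + f 3 * nu H 3 g + f 4 * nu H 4 g := by
    intro f
    unfold nu
    simp only [Finset.card_filter, Finset.mul_sum]
    rw [← Finset.sum_add_distrib, ← Finset.sum_add_distrib]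
    refine Finset.sum_congr rfl fun i _ => ?_
    rcases h.deg' hg i with h1 | h1 | h1 <;> rw [h1] <;> simp
  refine ⟨?_, ?_, ?_⟩
  · have := key (fun _ => 1)
    simp only [Finset.sum_const, Finset.card_univ, Fintype.card_fin, smul_eq_mul, mul_one,
      one_mul] at this
    omega
  · have := key (fun m => m)
    unfold ss
    omega
  · have := key (fun m => 12 / m)
    unfold cc
    omega

/-- double counting of the intersections with an edge -/
theorem dsum (F : Finset (Edge V)) (g : Edge V) :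
    ∑ i, dd F g i = ∑ g' ∈ F, (Finset.univ.filter (fun i => g' i = g i)).card := by
  unfold dd
  simp only [Finset.card_filter]
  exact Finset.sum_comm

theorem inter_sum {F : Finset (Edge V)} (hi : ∀ g ∈ F, ∀ g' ∈ F, mt g g') {g : Edge V}
    (hg : g ∈ F) : F.card + 4 ≤ ∑ i, dd F g i := by
  rw [dsum, ← Finset.add_sum_erase F _ hg]
  have h1 : (Finset.univ.filter (fun i : Fin 5 => g i = g i)).card = 5 := by simp
  rw [h1]
  have h2 : (F.erase g).card ≤
      ∑ g' ∈ F.erase g, (Finset.univ.filter (fun i => g' i = g i)).card := by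
    rw [Finset.card_eq_sum_ones]
    refine Finset.sum_le_sum fun g' hg' => ?_
    obtain ⟨i, hi'⟩ := hi g' (Finset.mem_of_mem_erase hg') g hg
    exact Finset.card_pos.2 ⟨i, Finset.mem_filter.2 ⟨Finset.mem_univ i, hi'⟩⟩
  rw [Finset.card_erase_of_mem hg] at h2
  have : 1 ≤ F.card := Finset.card_pos.2 ⟨g, hg⟩
  omega

theorem inter_sum2 {F : Finset (Edge V)} (hi : ∀ g ∈ F, ∀ g' ∈ F, mt g g') {g g' : Edge V}
    (hg : g ∈ F) (hg' : g' ∈ F) (hne : g' ≠ g) {i j : Fin 5} (hij : i ≠ j) (h1 : g' i = g i)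
    (h2 : g' j = g j) : F.card + 5 ≤ ∑ i, dd F g i := by
  rw [dsum, ← Finset.add_sum_erase F _ hg,
    ← Finset.add_sum_erase (F.erase g) _ (Finset.mem_erase.2 ⟨hne, hg'⟩)]
  have h3 : (Finset.univ.filter (fun i : Fin 5 => g i = g i)).card = 5 := by simp
  rw [h3]
  have h4 : 2 ≤ (Finset.univ.filter (fun i : Fin 5 => g' i = g i)).card := by
    have : ({i, j} : Finset (Fin 5)) ⊆ Finset.univ.filter (fun i : Fin 5 => g' i = g i) := by
      intro x hx
      rw [Finset.mem_insert, Finset.mem_singleton] at hx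
      rw [Finset.mem_filter]
      rcases hx with rfl | rfl
      · exact ⟨Finset.mem_univ _, h1⟩
      · exact ⟨Finset.mem_univ _, h2⟩
    have h5 := Finset.card_le_card this
    rw [Finset.card_pair hij] at h5
    exact h5
  have h2 : ((F.erase g).erase g').card ≤
      ∑ x ∈ (F.erase g).erase g', (Finset.univ.filter (fun i => x i = g i)).card := by
    rw [Finset.card_eq_sum_ones]
    refine Finset.sum_le_sum fun x hx => ?_
    obtain ⟨i, hi'⟩ := hi x (Finset.mem_of_mem_erase (Finset.mem_of_mem_erase hx)) g hg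
    exact Finset.card_pos.2 ⟨i, Finset.mem_filter.2 ⟨Finset.mem_univ i, hi'⟩⟩
  rw [Finset.card_erase_of_mem (Finset.mem_erase.2 ⟨hne, hg'⟩),
    Finset.card_erase_of_mem hg] at h2
  have : 1 ≤ F.card := Finset.card_pos.2 ⟨g, hg⟩
  have h6 : ({g, g'} : Finset (Edge V)) ⊆ F := by
    intro x hx
    rw [Finset.mem_insert, Finset.mem_singleton] at hx
    rcases hx with rfl | rfl
    · exact hg
    · exact hg'
  have h7 := Finset.card_le_card h6
  rw [Finset.card_pair hne.symm] at h7
  omega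

theorem dd_lt {F : Finset (Edge V)} (hFH : F ⊆ H) {g g' : Edge V} (hg' : g' ∈ H) (hgF : g' ∉ F)
    {i : Fin 5} (hi : g' i = g i) : dd F g i + 1 ≤ dd H g i := by
  unfold dd
  have h1 : (F.filter (fun x => x i = g i)) ⊂ (H.filter (fun x => x i = g i)) := by
    refine Finset.ssubset_iff_subset_ne.2 ⟨Finset.filter_subset_filter _ hFH, fun heq => hgF ?_⟩
    have : g' ∈ H.filter (fun x => x i = g i) := Finset.mem_filter.2 ⟨hg', hi⟩
    rw [← heq] at this
    exact (Finset.mem_filter.1 this).1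
  have := Finset.card_lt_card h1
  omega

/-- every edge of a proper intersecting subfamily has a neighbour outside -/
theorem Cex.out (h : Cex H) {F : Finset (Edge V)} (hF : F ⊂ H)
    (hi : ∀ g ∈ F, ∀ g' ∈ F, mt g g') {g : Edge V} (hg : g ∈ F) :
    ∑ i, dd F g i + 1 ≤ ss H g := by
  obtain ⟨C, hC, hC4⟩ := h.four hF hi
  obtain ⟨g', hg'H, ⟨j, hj⟩, hav⟩ := h.av (hF.1 hg) C hC4
  have hg'F : g' ∉ F := by
    intro h1
    obtain ⟨i, h2⟩ := hC g' h1
    exact hav i h2
  unfold ss
  rw [← Finset.add_sum_erase _ _ (Finset.mem_univ j),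
    ← Finset.add_sum_erase _ (fun i => dd H g i) (Finset.mem_univ j)]
  have h1 := dd_lt hF.1 hg'H hg'F hj.symm
  have h2 : ∑ i ∈ Finset.univ.erase j, dd F g i ≤ ∑ i ∈ Finset.univ.erase j, dd H g i :=
    Finset.sum_le_sum fun i _ => dd_mono hF.1 g i
  omega

/-- the same with a class that has at most four vertices -/
theorem Cex.out' (h : Cex H) {F : Finset (Edge V)} (hF : F ⊂ H) {i : Fin 5}
    (hK : (F.image (fun g => g i)).card ≤ 4) {g : Edge V} (hg : g ∈ F) :
    ∑ j ∈ Finset.univ.erase i, dd F g j + 1 ≤ ∑ j ∈ Finset.univ.erase i, dd H g j := by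
  set C : Finset ((i : Fin 5) × V i) := (F.image (fun g => g i)).image
    (fun x => (⟨i, x⟩ : (i : Fin 5) × V i)) with hC
  have hC4 : C.card ≤ 4 := Finset.card_image_le.trans hK
  obtain ⟨g', hg'H, ⟨j, hj⟩, hav⟩ := h.av (hF.1 hg) C hC4
  have hin : ∀ x ∈ F, (⟨i, x i⟩ : (i : Fin 5) × V i) ∈ C := by
    intro x hx
    rw [hC]
    exact Finset.mem_image.2 ⟨x i, Finset.mem_image.2 ⟨x, hx, rfl⟩, rfl⟩
  have hg'F : g' ∉ F := fun h1 => hav i (hin g' h1)
  have hji : j ≠ i := by
    rintro rfl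
    refine hav j ?_
    rw [← hj]
    exact hin g hg
  have hj' : j ∈ Finset.univ.erase i := Finset.mem_erase.2 ⟨hji, Finset.mem_univ j⟩
  rw [← Finset.add_sum_erase _ _ hj', ← Finset.add_sum_erase _ (fun i => dd H g i) hj']
  have h1 := dd_lt hF.1 hg'H hg'F hj.symm
  have h2 : ∑ x ∈ (Finset.univ.erase i).erase j, dd F g x ≤
      ∑ x ∈ (Finset.univ.erase i).erase j, dd H g x :=
    Finset.sum_le_sum fun i _ => dd_mono hF.1 g i
  omega

theorem sum_split (H : Finset (Edge V)) (g : Edge V) (i : Fin 5) :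
    ∑ j, dd H g j = dd H g i + ∑ j ∈ Finset.univ.erase i, dd H g j :=
  (Finset.add_sum_erase _ _ (Finset.mem_univ i)).symm

/-- Lemma P1 -/
theorem Cex.lemA (h : Cex H) {F : Finset (Edge V)} (hF : F ⊂ H)
    (hi : ∀ g ∈ F, ∀ g' ∈ F, mt g g') (h13 : F.card = 13) (hc : ∀ g ∈ F, cc H g ≤ 18) :
    5 ≤ ∑ g ∈ F, (18 - cc H g) := by
  by_contra hG
  push Not at hG
  have hd4 : ∀ g ∈ F, ∀ i, dd F g i ≤ 4 := fun g hg i =>
    (dd_mono hF.1 g i).trans (h.deg g (hF.1 hg) i)
  have hs : ∀ g ∈ F, 17 ≤ ∑ i, dd F g i := by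
    intro g hg
    have := inter_sum hi hg
    omega
  have ho : ∀ g ∈ F, ∑ i, dd F g i + 1 ≤ ss H g := fun g hg => h.out hF hi hg
  -- the classes
  have hcl : ∀ i, ∑ g ∈ F, dd F g i ≤ 45 ∧ (44 ≤ ∑ g ∈ F, dd F g i →
      (F.image (fun g => g i)).card ≤ 4 ∧ ∃ g ∈ F, dd F g i = 3) := by
    intro i
    obtain ⟨n1, n2, n3, n4, h1, h2, h3, h4, h5⟩ := parts F i fun g hg => hd4 g hg i
    rw [h13] at h1
    by_cases hK : (F.image (fun g => g i)).card ≤ 4
    · have hn1 : n1 = 0 := by
        by_contra hn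
        obtain ⟨g, hg, hg1⟩ := h4 (by omega)
        have h6 := h.out' hF hK hg
        have h7 := hs g hg
        rw [sum_split F g i, hg1] at h7
        have h8 := sum_split H g i
        have h9 := h.typ (hF.1 hg)
        unfold ss at h9
        rcases h.deg' (hF.1 hg) i with h10 | h10 | h10
        · have := nu_pos h10
          omega
        · have := nu_pos h10
          omega
        · omega
      refine ⟨by omega, fun h6 => ⟨hK, h5 (by omega)⟩⟩
    · have h6 : ∑ g ∈ F, dd F g i ≤ 43 := by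
        have h7 : n4 ≤ 3 := by omega
        interval_cases n4 <;> omega
      exact ⟨by omega, fun h7 => absurd h7 (by omega)⟩
  set J := Finset.univ.filter (fun i : Fin 5 => 44 ≤ ∑ g ∈ F, dd F g i) with hJ
  have htot : 221 ≤ ∑ i, ∑ g ∈ F, dd F g i := by
    rw [Finset.sum_comm]
    have : ∑ g ∈ F, 17 ≤ ∑ g ∈ F, ∑ i, dd F g i := Finset.sum_le_sum hs
    rw [Finset.sum_const, h13] at this
    simpa using this
  have hJ2 : 1 < J.card := by
    have h1 : ∑ i, ∑ g ∈ F, dd F g i ≤ ∑ i : Fin 5, (43 + if 44 ≤ ∑ g ∈ F, dd F g i then 2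
        else 0) := by
      refine Finset.sum_le_sum fun i _ => ?_
      have := (hcl i).1
      split_ifs <;> omega
    rw [Finset.sum_add_distrib, ← Finset.sum_filter, ← hJ, Finset.sum_const,
      Finset.sum_const] at h1
    simp only [Finset.card_univ, Fintype.card_fin, smul_eq_mul] at h1
    omega
  obtain ⟨i, hiJ, j, hjJ, hij⟩ := Finset.one_lt_card.1 hJ2
  -- the triples
  have htr : ∀ i ∈ J, ∃ g0 ∈ F, dd F g0 i = 3 ∧ ∀ g ∈ F, g i = g0 i → cc H g ≤ 17 := by
    intro i hiJ
    rw [hJ, Finset.mem_filter] at hiJ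
    obtain ⟨hK, g0, hg0, hg03⟩ := (hcl i).2 hiJ.2
    refine ⟨g0, hg0, hg03, ?_⟩
    rcases h.deg' (hF.1 hg0) i with h1 | h1 | h1
    · have := dd_mono hF.1 g0 i
      omega
    · intro g hg hgi
      have h2 : dd H g i = 3 := by rw [dd_congr hgi, h1]
      have h3 := nu_pos h2
      have h4 := h.typ (hF.1 hg)
      have h5 := ho g hg
      have h6 := hs g hg
      have h7 := hc g hg
      omega
    · exfalso
      have h2 : ∀ g ∈ F.filter (fun g => g i = g0 i), 2 ≤ 18 - cc H g := by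
        intro g hg
        rw [Finset.mem_filter] at hg
        have h3 : dd H g i = 4 := by rw [dd_congr hg.2, h1]
        have h4 : dd F g i = 3 := by rw [dd_congr hg.2, hg03]
        have h5 := h.out' hF hK hg.1
        have h6 := hs g hg.1
        rw [sum_split F g i, h4] at h6
        have h7 := sum_split H g i
        have h8 := h.typ (hF.1 hg.1)
        unfold ss at h8
        omega
      have h3 : ∑ g ∈ F.filter (fun g => g i = g0 i), 2 ≤ ∑ g ∈ F, (18 - cc H g) :=
        (Finset.sum_le_sum h2).trans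
          (Finset.sum_le_sum_of_subset_of_nonneg (Finset.filter_subset _ _) fun _ _ _ =>
            Nat.zero_le _)
      rw [Finset.sum_const] at h3
      unfold dd at hg03
      rw [hg03] at h3
      simp only [smul_eq_mul] at h3
      omega
  obtain ⟨gi, hgi, hgi3, hgic⟩ := htr i hiJ
  obtain ⟨gj, hgj, hgj3, hgjc⟩ := htr j hjJ
  set A := F.filter (fun g => g i = gi i) with hA
  set B := F.filter (fun g => g j = gj j) with hB
  have hA3 : A.card = 3 := hgi3
  have hB3 : B.card = 3 := hgj3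
  have hU : (A ∪ B).card ≤ 4 := by
    have h1 : ∑ g ∈ A ∪ B, 1 ≤ ∑ g ∈ A ∪ B, (18 - cc H g) := by
      refine Finset.sum_le_sum fun g hg => ?_
      rcases Finset.mem_union.1 hg with h2 | h2
      · rw [hA, Finset.mem_filter] at h2
        have := hgic g h2.1 h2.2
        omega
      · rw [hB, Finset.mem_filter] at h2
        have := hgjc g h2.1 h2.2
        omega
    have h2 : ∑ g ∈ A ∪ B, (18 - cc H g) ≤ ∑ g ∈ F, (18 - cc H g) :=
      Finset.sum_le_sum_of_subset_of_nonneg (Finset.union_subset (Finset.filter_subset _ _)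
        (Finset.filter_subset _ _)) fun _ _ _ => Nat.zero_le _
    rw [← Finset.card_eq_sum_ones] at h1
    omega
  have hI : 1 < (A ∩ B).card := by
    have := Finset.card_union_add_card_inter A B
    omega
  obtain ⟨g, hg, g', hg', hgg⟩ := Finset.one_lt_card.1 hI
  have hgA := Finset.mem_filter.1 (Finset.mem_of_mem_inter_left hg)
  have hgB := Finset.mem_filter.1 (Finset.mem_of_mem_inter_right hg)
  have hgA' := Finset.mem_filter.1 (Finset.mem_of_mem_inter_left hg')
  have hgB' := Finset.mem_filter.1 (Finset.mem_of_mem_inter_right hg')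
  have hcg : cc H g ≤ 16 := by
    have h1 := inter_sum2 hi hgA.1 hgA'.1 hgg.symm hij (hgA'.2.trans hgA.2.symm)
      (hgB'.2.trans hgB.2.symm)
    have h2 := ho g hgA.1
    have h3 := h.typ (hF.1 hgA.1)
    omega
  have hcg' : cc H g' ≤ 16 := by
    have h1 := inter_sum2 hi hgA'.1 hgA.1 hgg hij (hgA.2.trans hgA'.2.symm)
      (hgB.2.trans hgB'.2.symm)
    have h2 := ho g' hgA'.1
    have h3 := h.typ (hF.1 hgA'.1)
    omega
  have hsub : ∑ x ∈ A, (18 - cc H x) ≤ ∑ g ∈ F, (18 - cc H g) :=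
    Finset.sum_le_sum_of_subset_of_nonneg (Finset.filter_subset _ _) fun _ _ _ => Nat.zero_le _
  have hgAm : g ∈ A := Finset.mem_of_mem_inter_left hg
  have hg'Am : g' ∈ A.erase g := Finset.mem_erase.2 ⟨hgg.symm, Finset.mem_of_mem_inter_left hg'⟩
  rw [← Finset.add_sum_erase A _ hgAm, ← Finset.add_sum_erase (A.erase g) _ hg'Am] at hsub
  have hlast : ∑ x ∈ (A.erase g).erase g', 1 ≤ ∑ x ∈ (A.erase g).erase g', (18 - cc H x) := by
    refine Finset.sum_le_sum fun x hx => ?_
    have hxA := Finset.mem_filter.1 (Finset.mem_of_mem_erase (Finset.mem_of_mem_erase hx))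
    have := hgic x hxA.1 hxA.2
    omega
  rw [← Finset.card_eq_sum_ones, Finset.card_erase_of_mem hg'Am, Finset.card_erase_of_mem hgAm,
    hA3] at hlast
  omega

end Pool.Agent.Lib.MP_3edce6_co
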